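import Pool.Agent.LeoD.QuarStmts

/-! CLB: the class number of a real quadratic field. -/

set_option autoImplicit false

open NumberField NumberField.InfinitePlace IsDedekindDomain Module

namespace Pool.Agent.LeoD.H81

open Pool.Agent.LeoD Nat Real

theorem clb (idb : IdbStmt) : ClbStmt := by
  obtain ⟨C, hC, h⟩ := idb
  refine ⟨C, hC, ?_⟩
  intro k _ _ d s hk2 hsq hd hs htr hdisc
  have hd1 : (1 : ℝ) ≤ (d : ℝ) := by exact_mod_cast hd.le
  have hY : (1 : ℝ) ≤ Real.sqrt d := by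
    rw [Real.one_le_sqrt]
    exact hd1
  obtain ⟨hfin, hcard⟩ := h k d s hk2 hsq hd hs (Real.sqrt d) hY
  have hcx : nrComplexPlaces k = 0 := nrComplexPlaces_eq_zero_iff.2 htr
  have hpos : 0 < discr k := by
    have h1 := sign_discr k
    rw [hcx, pow_zero] at h1
    exact Int.sign_eq_one_iff_pos.1 h1
  have hM : (4 / π) ^ nrComplexPlaces k * ((finrank ℚ k)! / (finrank ℚ k : ℝ) ^ (finrank ℚ k) *
      Real.sqrt |(discr k : ℝ)|) ≤ Real.sqrt d := by
    rw [hcx, pow_zero, one_mul, hk2, abs_of_pos (by exact_mod_cast hpos)]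
    have h2 : Real.sqrt (discr k : ℝ) ≤ 2 * Real.sqrt d := by
      have h3 : Real.sqrt ((2 : ℝ) ^ 2 * (d : ℝ)) = 2 * Real.sqrt d := by
        rw [Real.sqrt_mul (by norm_num), Real.sqrt_sq (by norm_num)]
      rw [← h3]
      refine Real.sqrt_le_sqrt ?_
      have h4 : (discr k : ℝ) ≤ ((4 * (d : ℤ) : ℤ) : ℝ) := by exact_mod_cast hdisc
      push_cast at h4
      linarith
    have h5 : (((2 : ℕ)! : ℕ) : ℝ) = 2 := by norm_num [Nat.factorial]
    rw [h5]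
    push_cast
    nlinarith [Real.sqrt_nonneg (d : ℝ)]
  have hex : ∀ c : ClassGroup (𝓞 k), ∃ I : Ideal (𝓞 k), (I ≠ ⊥ ∧ (Ideal.absNorm I : ℝ) ≤ Real.sqrt d) ∧
      ∃ hI : I ∈ nonZeroDivisors (Ideal (𝓞 k)), ClassGroup.mk0 ⟨I, hI⟩ = c := by
    intro c
    obtain ⟨I, hI, hn⟩ := exists_ideal_in_class_of_norm_le c
    exact ⟨I, ⟨nonZeroDivisors.coe_ne_zero I, hn.trans hM⟩, I.2, hI⟩
  choose f hf hf' using hex
  have hinj : Function.Injective f := by
    intro a b hab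
    obtain ⟨h1, h2⟩ := hf' a
    obtain ⟨h3, h4⟩ := hf' b
    rw [← h2, ← h4]
    congr 1
    exact Subtype.ext hab
  have h6 : Fintype.card (ClassGroup (𝓞 k)) ≤
      {I : Ideal (𝓞 k) | I ≠ ⊥ ∧ (Ideal.absNorm I : ℝ) ≤ Real.sqrt d}.ncard := by
    have h7 : (Set.range f) ⊆ {I : Ideal (𝓞 k) | I ≠ ⊥ ∧ (Ideal.absNorm I : ℝ) ≤ Real.sqrt d} := by
      rintro _ ⟨c, rfl⟩
      exact hf c
    have h8 : (Set.range f).ncard = Fintype.card (ClassGroup (𝓞 k)) := by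
      rw [← Set.image_univ, Set.ncard_image_of_injective _ hinj, Set.ncard_univ, Nat.card_eq_fintype_card]
    rw [← h8]
    exact Set.ncard_le_ncard h7 hfin
  have h9 : (Fintype.card (ClassGroup (𝓞 k)) : ℝ) ≤
      ({I : Ideal (𝓞 k) | I ≠ ⊥ ∧ (Ideal.absNorm I : ℝ) ≤ Real.sqrt d}.ncard : ℝ) := by
    exact_mod_cast h6
  exact h9.trans hcard

end Pool.Agent.LeoD.H81
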