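import Pool.Agent.LeoD.QuarStmts

/-! JAC: sums of the Jacobi symbol. -/

set_option autoImplicit false

namespace Pool.Agent.LeoD.H81

open Pool.Agent.LeoD Finset

theorem exists_neg (d : ℕ) (hsq : Squarefree d) (hd : 1 < d) :
    ∃ a : ℕ, Odd a ∧ jacobiSym (d : ℤ) a = -1 := by
  by_cases h : ∃ p : ℕ, p.Prime ∧ p ≠ 2 ∧ p ∣ d
  · obtain ⟨p, hp, hp2, e, he⟩ := h
    have := Fact.mk hp
    have hodd : Odd p := hp.odd_of_ne_two hp2
    have hpe : p.Coprime e := by
      rw [Nat.Prime.coprime_iff_not_dvd hp]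
      rintro ⟨c, hc⟩
      have h1 : p * p ∣ d := ⟨c, by rw [he, hc]; ring⟩
      exact hp.one_lt.ne' (Nat.isUnit_iff.1 (hsq p h1))
    have he0 : 0 < e := by
      rcases Nat.eq_zero_or_pos e with h0 | h0
      · rw [h0, mul_zero] at he; omega
      · exact h0
    obtain ⟨x, hx⟩ := FiniteField.exists_nonsquare (F := ZMod p) (by rw [ZMod.ringChar_zmod_n]; exact hp2)
    have hco : (4 * e).Coprime p := by
      refine Nat.Coprime.mul_left ?_ hpe.symm
      have h2 : Nat.Coprime 2 p := (Nat.coprime_primes Nat.prime_two hp).2 (Ne.symm hp2)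
      exact Nat.Coprime.pow_left 2 h2
    obtain ⟨a, ha1, ha2⟩ := Nat.chineseRemainder hco 1 x.val
    have h4 : a % (4 * e) = 1 := by
      have h5 : a % (4 * e) = 1 % (4 * e) := ha1
      rw [h5]
      exact Nat.mod_eq_of_lt (by omega)
    have h6 : a % 4 = 1 := by
      have h7 : a % 4 = (a % (4 * e)) % 4 := (Nat.mod_mod_of_dvd a (dvd_mul_right 4 e)).symm
      rw [h7, h4]
    have hao : Odd a := by rw [Nat.odd_iff]; omega
    refine ⟨a, hao, ?_⟩
    have hd' : (d : ℤ) = (p : ℤ) * (e : ℤ) := by rw [he]; push_cast; ring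
    rw [hd', jacobiSym.mul_left]
    have h8 : jacobiSym (e : ℤ) a = 1 := by
      rw [jacobiSym.mod_right' e hao, h4, jacobiSym.one_right]
    have h9 : jacobiSym (p : ℤ) a = -1 := by
      rw [jacobiSym.quadratic_reciprocity_one_mod_four' hodd h6,
        ZMod.nonsquare_iff_jacobiSym_eq_neg_one]
      have h10 : ((a : ℤ) : ZMod p) = x := by
        have h11 : (a : ZMod p) = (x.val : ZMod p) := (ZMod.natCast_eq_natCast_iff _ _ _).2 ha2
        rw [Int.cast_natCast, h11, ZMod.natCast_zmod_val]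
      rw [h10]
      exact hx
    rw [h8, h9]
    norm_num
  · have h2 : d = 2 := by
      have h3 : ∀ p : ℕ, p.Prime → p ∣ d → p = 2 := by
        intro p hp hpd
        by_contra hne
        exact h ⟨p, hp, hne, hpd⟩
      obtain ⟨p, hp, e, he⟩ := Nat.exists_prime_and_dvd hd.ne'
      have hp2 : p = 2 := h3 p hp ⟨e, he⟩
      subst hp2
      by_cases he1 : e = 1
      · rw [he, he1]
      · exfalso
        obtain ⟨q, hq, c, hc⟩ := Nat.exists_prime_and_dvd he1
        have hq2 : q = 2 := h3 q hq ⟨2 * c, by rw [he, hc]; ring⟩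
        subst hq2
        have h5 : 2 * 2 ∣ d := ⟨c, by rw [he, hc]; ring⟩
        have h6 := Nat.isUnit_iff.1 (hsq 2 h5)
        omega
    refine ⟨3, by decide, ?_⟩
    rw [h2]
    norm_num

/-- the Jacobi symbol on odd numbers, `0` on even numbers -/
def ff (d a : ℕ) : ℤ := if Odd a then jacobiSym (d : ℤ) a else 0

theorem ff_le (d a : ℕ) : ff d a ≤ 1 := by
  unfold ff
  split_ifs
  · rcases jacobiSym.trichotomy (d : ℤ) a with h | h | h <;> rw [h] <;> norm_num
  · norm_num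

theorem ff_mod (d a : ℕ) : ff d (a % (4 * d)) = ff d a := by
  have h1 : Odd (a % (4 * d)) ↔ Odd a := by
    rw [Nat.odd_iff, Nat.odd_iff, Nat.mod_mod_of_dvd a (dvd_mul_of_dvd_left (by norm_num) d)]
  unfold ff
  by_cases h : Odd a
  · rw [if_pos h, if_pos (h1.2 h), jacobiSym.mod_right' d h]
  · rw [if_neg h, if_neg (fun h2 => h (h1.1 h2))]

theorem ff_mul (d a b : ℕ) (hb : Odd b) (hneg : jacobiSym (d : ℤ) b = -1) :
    ff d (a * b) = - ff d a := by
  unfold ff
  by_cases h : Odd a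
  · rw [if_pos h, if_pos (h.mul hb), jacobiSym.mul_right' _ h.pos.ne' hb.pos.ne', hneg]
    ring
  · rw [if_neg h, if_neg (fun h2 => h (Nat.odd_mul.1 h2).1)]
    norm_num

theorem sum_zmod (m : ℕ) [h : NeZero m] (g : ℕ → ℤ) :
    ∑ a ∈ range m, g a = ∑ x : ZMod m, g x.val := by
  cases m with
  | zero => exact absurd rfl h.out
  | succ n => exact (Fin.sum_univ_eq_sum_range g (n + 1)).symm

theorem ff_period (d : ℕ) (hsq : Squarefree d) (hd : 1 < d) : ∑ a ∈ range (4 * d), ff d a = 0 := by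
  obtain ⟨b, hb, hneg⟩ := exists_neg d hsq hd
  have hco : b.Coprime (4 * d) := by
    refine Nat.Coprime.mul_right ?_ ?_
    · exact Nat.Coprime.pow_right 2 (Nat.coprime_two_right.2 hb)
    · by_contra hne
      have h1 : jacobiSym (d : ℤ) b = 0 := by
        rw [jacobiSym.eq_zero_iff]
        refine ⟨hb.pos.ne', ?_⟩
        intro h2
        apply hne
        have h3 : (d : ℤ).gcd b = Nat.gcd d b := rfl
        rw [h3] at h2
        exact Nat.Coprime.symm h2
      rw [hneg] at h1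
      norm_num at h1
  have h0 : 4 * d ≠ 0 := by omega
  have hne : NeZero (4 * d) := ⟨h0⟩
  have h1 : ∑ a ∈ range (4 * d), ff d a = ∑ x : ZMod (4 * d), ff d x.val :=
    sum_zmod (4 * d) (fun a => ff d a)
  have h2 : ∑ x : ZMod (4 * d), ff d (x * (ZMod.unitOfCoprime b hco : (ZMod (4 * d))ˣ)).val =
      ∑ x : ZMod (4 * d), ff d x.val :=
    Equiv.sum_comp (Units.mulRight (ZMod.unitOfCoprime b hco)) (fun x : ZMod (4 * d) => ff d x.val)
  have h3 : ∀ x : ZMod (4 * d), ff d (x * (ZMod.unitOfCoprime b hco : (ZMod (4 * d))ˣ)).val =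
      - ff d x.val := by
    intro x
    rw [← ff_mul d x.val b hb hneg, ← ff_mod d (x.val * b), ZMod.coe_unitOfCoprime, ZMod.val_mul,
      ZMod.val_natCast, Nat.mul_mod_mod]
  rw [h1]
  simp only [h3, Finset.sum_neg_distrib] at h2
  linarith

theorem ff_shift (d : ℕ) (hsq : Squarefree d) (hd : 1 < d) (M : ℕ) :
    ∑ a ∈ range (4 * d + M), ff d a = ∑ a ∈ range M, ff d a := by
  rw [Finset.sum_range_add, ff_period d hsq hd, zero_add]
  refine Finset.sum_congr rfl fun a _ => ?_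
  rw [← ff_mod d (4 * d + a), Nat.add_mod_left, ff_mod]

theorem ff_bound (d : ℕ) (hsq : Squarefree d) (hd : 1 < d) (M : ℕ) :
    ∑ a ∈ range M, ff d a ≤ 4 * d := by
  induction M using Nat.strong_induction_on with
  | _ M ih =>
    by_cases hM : M ≤ 4 * d
    · have h1 : ∑ a ∈ range M, ff d a ≤ ∑ a ∈ range M, (1 : ℤ) :=
        Finset.sum_le_sum fun a _ => ff_le d a
      rw [Finset.sum_const, Finset.card_range, nsmul_eq_mul, mul_one] at h1
      have h2 : (M : ℤ) ≤ 4 * d := by exact_mod_cast hM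
      linarith
    · obtain ⟨M', hM'⟩ := Nat.exists_eq_add_of_le (not_le.1 hM).le
      rw [hM', ff_shift d hsq hd]
      exact ih M' (by omega)

theorem odd_sum (d M : ℕ) :
    ∑ a ∈ (Icc 1 M).filter Odd, jacobiSym (d : ℤ) a = ∑ a ∈ range (M + 1), ff d a := by
  rw [Finset.sum_filter]
  have h1 : range (M + 1) = insert 0 (Icc 1 M) := by
    ext a
    simp only [mem_range, mem_insert, mem_Icc]
    omega
  rw [h1, Finset.sum_insert (by simp)]
  have h2 : ff d 0 = 0 := by simp [ff]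
  rw [h2, zero_add]
  rfl

theorem inner_bound (d : ℕ) (hsq : Squarefree d) (hd : 1 < d) (M : ℕ) :
    ∑ a ∈ (Icc 1 M).filter Odd, jacobiSym (d : ℤ) a ≤ (((Icc 1 (4 * d)).filter (· ≤ M)).card : ℤ) := by
  have h0 : (((Icc 1 (4 * d)).filter (· ≤ M)).card : ℤ) = ((min (4 * d) M : ℕ) : ℤ) := by
    have h1 : (Icc 1 (4 * d)).filter (· ≤ M) = Icc 1 (min (4 * d) M) := by
      ext a
      simp only [mem_filter, mem_Icc, le_min_iff]
      tauto
    rw [h1, Nat.card_Icc]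
    norm_num
  rw [h0]
  rcases le_total (4 * d) M with h | h
  · rw [min_eq_left h, odd_sum]
    have := ff_bound d hsq hd (M + 1)
    push_cast
    exact this
  · rw [min_eq_right h, odd_sum, Finset.sum_range_succ']
    have h2 : ff d 0 = 0 := by simp [ff]
    rw [h2, add_zero]
    have h1 : ∑ a ∈ range M, ff d (a + 1) ≤ ∑ a ∈ range M, (1 : ℤ) :=
      Finset.sum_le_sum fun a _ => ff_le d _
    rw [Finset.sum_const, Finset.card_range, nsmul_eq_mul, mul_one] at h1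
    exact h1

theorem swap (d N : ℕ) :
    ∑ n ∈ (Icc 1 N).filter Odd, ∑ a ∈ n.divisors, jacobiSym (d : ℤ) a =
      ∑ b ∈ (Icc 1 N).filter Odd, ∑ a ∈ (Icc 1 (N / b)).filter Odd, jacobiSym (d : ℤ) a := by
  rw [Finset.sum_sigma', Finset.sum_sigma']
  refine Finset.sum_bij' (fun x _ => ⟨x.1 / x.2, x.2⟩) (fun x _ => ⟨x.2 * x.1, x.2⟩) ?_ ?_ ?_ ?_ ?_
  · rintro ⟨n, a⟩ hx
    simp only [mem_sigma, mem_filter, mem_Icc, Nat.mem_divisors] at hx ⊢
    obtain ⟨⟨⟨hn1, hnN⟩, hodd⟩, ⟨c, hc⟩, -⟩ := hx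
    subst hc
    have ha : 0 < a := by
      rcases Nat.eq_zero_or_pos a with h | h
      · rw [h, zero_mul] at hn1; omega
      · exact h
    have hc0 : 0 < c := by
      rcases Nat.eq_zero_or_pos c with h | h
      · rw [h, mul_zero] at hn1; omega
      · exact h
    rw [Nat.mul_div_cancel_left c ha]
    obtain ⟨ho1, ho2⟩ := Nat.odd_mul.1 hodd
    refine ⟨⟨⟨hc0, (Nat.le_mul_of_pos_left c ha).trans hnN⟩, ho2⟩, ⟨ha, ?_⟩, ho1⟩
    exact (Nat.le_div_iff_mul_le hc0).2 hnN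
  · rintro ⟨b, a⟩ hx
    simp only [mem_sigma, mem_filter, mem_Icc, Nat.mem_divisors] at hx ⊢
    obtain ⟨⟨⟨hb1, hbN⟩, hbo⟩, ⟨ha1, haN⟩, hao⟩ := hx
    have h1 : a * b ≤ N := (Nat.le_div_iff_mul_le (by omega)).1 haN
    have h2 : 0 < a * b := Nat.mul_pos (by omega) (by omega)
    exact ⟨⟨⟨h2, h1⟩, hao.mul hbo⟩, dvd_mul_right _ _, h2.ne'⟩
  · rintro ⟨n, a⟩ hx
    simp only [mem_sigma, mem_filter, mem_Icc, Nat.mem_divisors] at hx
    simp only [Sigma.mk.injEq, heq_eq_eq, and_true]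
    exact Nat.mul_div_cancel' hx.2.1
  · rintro ⟨b, a⟩ hx
    simp only [mem_sigma, mem_filter, mem_Icc] at hx
    simp only [Sigma.mk.injEq, heq_eq_eq, and_true]
    exact Nat.mul_div_cancel_left _ (by omega)
  · rintro ⟨n, a⟩ _
    rfl

theorem jac : JacStmt := by
  refine ⟨3, by norm_num, ?_⟩
  intro d hsq hd Y hY
  set N : ℕ := ⌊Y⌋₊ with hN
  have hNY : (N : ℝ) ≤ Y := Nat.floor_le (by linarith)
  have h1 : (∑ n ∈ (Icc 1 N).filter Odd, ∑ a ∈ n.divisors, jacobiSym (d : ℤ) a) ≤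
      ∑ a ∈ Icc 1 (4 * d), ((N / a : ℕ) : ℤ) := by
    rw [swap]
    have h2 : ∑ b ∈ (Icc 1 N).filter Odd, ∑ a ∈ (Icc 1 (N / b)).filter Odd, jacobiSym (d : ℤ) a ≤
        ∑ b ∈ (Icc 1 N).filter Odd, (((Icc 1 (4 * d)).filter (· ≤ N / b)).card : ℤ) :=
      Finset.sum_le_sum fun b _ => inner_bound d hsq hd _
    have h3 : ∑ b ∈ (Icc 1 N).filter Odd, (((Icc 1 (4 * d)).filter (· ≤ N / b)).card : ℤ) ≤
        ∑ b ∈ Icc 1 N, (((Icc 1 (4 * d)).filter (· ≤ N / b)).card : ℤ) :=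
      Finset.sum_le_sum_of_subset_of_nonneg (Finset.filter_subset _ _) fun _ _ _ => by positivity
    have h4 : ∑ b ∈ Icc 1 N, (((Icc 1 (4 * d)).filter (· ≤ N / b)).card : ℤ) =
        ∑ a ∈ Icc 1 (4 * d), (((Icc 1 N).filter (a ≤ N / ·)).card : ℤ) := by
      simp only [Finset.card_filter]
      push_cast
      exact Finset.sum_comm
    have h5 : ∑ a ∈ Icc 1 (4 * d), (((Icc 1 N).filter (a ≤ N / ·)).card : ℤ) ≤
        ∑ a ∈ Icc 1 (4 * d), ((N / a : ℕ) : ℤ) := by
      refine Finset.sum_le_sum fun a ha => ?_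
      rw [mem_Icc] at ha
      have h6 : (Icc 1 N).filter (a ≤ N / ·) ⊆ Icc 1 (N / a) := by
        intro b hb
        rw [mem_filter, mem_Icc] at hb
        rw [mem_Icc]
        refine ⟨hb.1.1, ?_⟩
        have h7 : a * b ≤ N := (Nat.le_div_iff_mul_le (by omega)).1 hb.2
        exact (Nat.le_div_iff_mul_le (by omega)).2 (by rw [mul_comm]; exact h7)
      have h8 := Finset.card_le_card h6
      rw [Nat.card_Icc, Nat.add_sub_cancel] at h8
      exact_mod_cast h8
    linarith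
  have h9 : ((∑ n ∈ (Icc 1 N).filter Odd, ∑ a ∈ n.divisors, jacobiSym (d : ℤ) a : ℤ) : ℝ) ≤
      ∑ a ∈ Icc 1 (4 * d), ((N / a : ℕ) : ℝ) := by
    refine (Int.cast_le.2 h1).trans (le_of_eq ?_)
    rw [Int.cast_sum]
    refine Finset.sum_congr rfl fun a _ => ?_
    rw [Int.cast_natCast]
  have h10 : ∑ a ∈ Icc 1 (4 * d), ((N / a : ℕ) : ℝ) ≤ Y * ∑ a ∈ Icc 1 (4 * d), ((a : ℝ))⁻¹ := by
    rw [Finset.mul_sum]
    refine Finset.sum_le_sum fun a ha => ?_
    rw [mem_Icc] at ha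
    have h11 : ((N / a : ℕ) : ℝ) ≤ (N : ℝ) / a := Nat.cast_div_le
    have h12 : (0 : ℝ) < a := by exact_mod_cast ha.1
    rw [← div_eq_mul_inv]
    exact h11.trans (div_le_div_of_nonneg_right hNY h12.le)
  have h13 : ∑ a ∈ Icc 1 (4 * d), ((a : ℝ))⁻¹ ≤ 1 + Real.log (4 * d) := by
    have h14 := harmonic_le_one_add_log (4 * d)
    rw [harmonic_eq_sum_Icc] at h14
    push_cast at h14
    exact h14
  have hd0 : (1 : ℝ) < d := by exact_mod_cast hd
  have h15 : Real.log (4 * d) = Real.log 4 + Real.log d :=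
    Real.log_mul (by norm_num) (by linarith)
  have h16 : Real.log 4 ≤ 2 := by
    have h17 : (4 : ℝ) ≤ Real.exp 2 := by
      have := Real.add_one_le_exp (1 : ℝ)
      have h18 : Real.exp 2 = Real.exp 1 * Real.exp 1 := by rw [← Real.exp_add]; norm_num
      rw [h18]
      nlinarith
    calc Real.log 4 ≤ Real.log (Real.exp 2) := Real.log_le_log (by norm_num) h17
      _ = 2 := Real.log_exp 2
  have h19 : 0 ≤ Real.log d := Real.log_nonneg hd0.le
  have h20 : Y * ∑ a ∈ Icc 1 (4 * d), ((a : ℝ))⁻¹ ≤ Y * (3 * (1 + Real.log d)) := by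
    refine mul_le_mul_of_nonneg_left ?_ (by linarith)
    rw [h15] at h13
    linarith
  calc ((∑ n ∈ (Icc 1 N).filter Odd, ∑ a ∈ n.divisors, jacobiSym (d : ℤ) a : ℤ) : ℝ) ≤
      Y * (3 * (1 + Real.log d)) := h9.trans (h10.trans h20)
    _ = 3 * Y * (1 + Real.log d) := by ring

end Pool.Agent.LeoD.H81
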