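import Mathlib
import Pool.Agent.LeoD.MixStmts
import Pool.Agent.Helper69_LeoD.Qtr
import Pool.Agent.Helper90_LeoD.Qtrt

/-!
# QTM: quartic fields of signature (2, 1) over a real quadratic field and the quadratic extensions
of it, ramified at one real place (squad LEOD)
-/

set_option autoImplicit false

open NumberField NumberField.InfinitePlace NumberField.mixedEmbedding IsDedekindDomain Module
  MeasureTheory Filter Topology
open Pool.Agent.Helper85_Leo Pool.Agent.LeoK Pool.Agent.LeoG Pool.Agent.LeoC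

open scoped Classical

namespace Pool.Agent.LeoD.H81

theorem nrC_eq {A B : Type} [Field A] [NumberField A] [Field B] [NumberField B] (E : A ≃+* B) :
    nrComplexPlaces A = nrComplexPlaces B := by
  have h : ∀ {A B : Type} [Field A] [NumberField A] [Field B] [NumberField B] (E : A ≃+* B),
      nrComplexPlaces B ≤ nrComplexPlaces A := by
    intro A B _ _ _ _ E
    unfold nrComplexPlaces
    refine Fintype.card_le_of_injective (fun w : {w : InfinitePlace B // IsComplex w} =>
      (⟨w.1.comap (E : A →+* B), ?_⟩ : {w : InfinitePlace A // IsComplex w})) ?_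
    · have h1 := w.2
      rw [← not_isReal_iff_isComplex] at h1 ⊢
      intro h2
      apply h1
      have h3 := h2.comap (E.symm : B →+* A)
      rw [← comap_comp] at h3
      have h4 : (E : A →+* B).comp (E.symm : B →+* A) = RingHom.id B := by
        ext x
        simp
      rwa [h4, InfinitePlace.comap_id] at h3
    · intro w w' hww
      have h1 : w.1.comap (E : A →+* B) = w'.1.comap (E : A →+* B) := congrArg Subtype.val hww
      have h2 : (w.1.comap (E : A →+* B)).comap (E.symm : B →+* A) =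
          (w'.1.comap (E : A →+* B)).comap (E.symm : B →+* A) := by rw [h1]
      rw [← comap_comp, ← comap_comp] at h2
      have h4 : (E : A →+* B).comp (E.symm : B →+* A) = RingHom.id B := by
        ext x
        simp
      rw [h4, InfinitePlace.comap_id, InfinitePlace.comap_id] at h2
      exact Subtype.ext h2
  exact le_antisymm (h E.symm) (h E)

/-- Quadratic extensions of a real quadratic field of signature (2, 1). -/
theorem quadN1_iff {k : Type} [Field k] [NumberField k] (hk2 : finrank ℚ k = 2)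
    (hkr : IsTotallyReal k) {K : Type} [Field K] [NumberField K] [Algebra k K] :
    (∃ w : {w : InfinitePlace k // IsReal w}, QuadN ({w} : Set {w : InfinitePlace k // IsReal w}) K)
      ↔ finrank ℚ K = 4 ∧ nrComplexPlaces K = 1 := by
  have htower : finrank ℚ k * finrank k K = finrank ℚ K := Module.finrank_mul_finrank ℚ k K
  have hk0 : nrComplexPlaces k = 0 := nrComplexPlaces_eq_zero_iff.2 hkr
  constructor
  · rintro ⟨w, h⟩
    have h1 := h.quad
    have h2 := h.cplx
    rw [Set.ncard_singleton, hk0, mul_zero, zero_add] at h2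
    exact ⟨by rw [← htower, hk2, h1], h2⟩
  · rintro ⟨h4, hc⟩
    have hq : finrank k K = 2 := by
      rw [hk2, h4] at htower
      omega
    have hgal : IsGalois k K := by
      have : Algebra.IsQuadraticExtension k K := ⟨hq⟩
      infer_instance
    have e1 := card_add_two_mul_card_eq_rank K
    have e2 := card_add_two_mul_card_eq_rank k
    have e3 := card_eq_nrRealPlaces_add_nrComplexPlaces K
    have e4 := card_eq_nrRealPlaces_add_nrComplexPlaces k
    have e5 := card_eq_card_isUnramifiedIn k K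
    have e6 := Finset.card_add_card_compl ({w : InfinitePlace k | w.IsUnramifiedIn K} : Finset _)
    rw [h4, hc] at e1
    rw [hk2, hk0] at e2
    rw [hc] at e3
    rw [hk0] at e4
    rw [hq] at e5
    have e7 : (({w : InfinitePlace k | w.IsUnramifiedIn K} : Finset _)ᶜ).card = 1 := by omega
    obtain ⟨w0, hw0⟩ := Finset.card_eq_one.1 e7
    refine ⟨⟨w0, IsTotallyReal.isReal w0⟩, hq, ?_, ?_, ?_⟩
    · intro w'
      have h1 : w'.1 ∈ (({w : InfinitePlace k | w.IsUnramifiedIn K} : Finset _)ᶜ) ↔ w'.1 = w0 := by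
        rw [hw0, Finset.mem_singleton]
      rw [Finset.mem_compl, Finset.mem_filter_univ] at h1
      rw [Set.mem_singleton_iff, Subtype.ext_iff]
      tauto
    · rw [Set.ncard_singleton]
      omega
    · rw [Set.ncard_singleton, hc, hk0]

theorem qx_disjoint {k : Type} [Field k] [NumberField k] {w w' : {w : InfinitePlace k // IsReal w}}
    {X : ℝ} {K : IntermediateField k (AlgebraicClosure k)} (h : K ∈ Qx k {w} X)
    (h' : K ∈ Qx k {w'} X) : w = w' := by
  obtain ⟨h1, hq, -⟩ := h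
  obtain ⟨h2, hq', -⟩ := h'
  have h3 : ¬ w.1.IsUnramifiedIn K := fun h => (hq.ram w).1 h rfl
  by_contra hne
  exact h3 ((hq'.ram w).2 hne)

theorem mem_iff1 {k : IntermediateField ℚ (AlgebraicClosure ℚ)} [NumberField k]
    (e : AlgebraicClosure k ≃ₐ[k] AlgebraicClosure ℚ) (hk2 : finrank ℚ k = 2)
    (hkr : IsTotallyReal k) (X : ℝ) (L : IntermediateField k (AlgebraicClosure k)) :
    (∃ w : {w : InfinitePlace k // IsReal w}, L ∈ Qx k {w} X) ↔ H69.tr e L ∈ Q4m X := by
  have E := H69.trE e L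
  constructor
  · rintro ⟨w, hL, hq, hd⟩
    obtain ⟨h4, hr⟩ := (quadN1_iff hk2 hkr).1 ⟨w, hq⟩
    have hN : NumberField (H69.tr e L) := NumberField.of_ringEquiv _ _ E
    refine ⟨hN, ?_, ?_, ?_, k, H69.le_tr e L, hk2⟩
    · rw [← h4]
      exact (H69.fr_eq E).symm
    · rw [← hr]
      exact (nrC_eq E).symm
    · rw [← discr_eq_discr_of_ringEquiv L E]
      exact hd
  · rintro ⟨hN, h4, hr, hd, _⟩
    have hL : NumberField L := NumberField.of_ringEquiv _ _ E.symm
    obtain ⟨w, hw⟩ := (quadN1_iff (K := L) hk2 hkr).2 ⟨by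
      rw [← h4]
      exact H69.fr_eq E, by
      rw [← hr]
      exact nrC_eq E⟩
    refine ⟨w, hL, hw, ?_⟩
    rw [discr_eq_discr_of_ringEquiv L E]
    exact hd

/-- The core of QTRT: a good quadratic extension satisfies Leopoldt's conjecture in all layers. -/
theorem core {k : IntermediateField ℚ (AlgebraicClosure ℚ)} [NumberField k]
    (e : AlgebraicClosure k ≃ₐ[k] AlgebraicClosure ℚ) (hk2 : finrank ℚ k = 2)
    (hlk : LeoCyc k) (L : IntermediateField k (AlgebraicClosure k)) [NumberField L]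
    (hK4 : finrank ℚ (H69.tr e L) = 4) (hG : GoodT k L) : LeoCyc (H69.tr e L) := by
  have hkK : k ≤ H69.tr e L := H69.le_tr e L
  intro M j hNM hM hMj
  have hM0 : finrank ℚ M ≠ 0 := by rw [hMj]; positivity
  have hfM : FiniteDimensional ℚ M := FiniteDimensional.of_finrank_pos (Nat.pos_of_ne_zero hM0)
  have hfk : FiniteDimensional ℚ k := FiniteDimensional.of_finrank_pos (by rw [hk2]; norm_num)
  have hfkM : FiniteDimensional ℚ ↥(k ⊔ M) := IntermediateField.finiteDimensional_sup k M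
  have hNkM : NumberField ↥(k ⊔ M) :=
    { to_charZero := inferInstance, to_finiteDimensional := hfkM }
  have hLk : LeopoldtAt ↥(k ⊔ M) 3 := hlk M j hNkM hM hMj
  have hc3 : ∀ a : ℕ, Nat.Coprime (2 ^ a) (3 ^ j) := fun a =>
    Nat.Coprime.pow _ _ (by norm_num)
  have hd1 : finrank ℚ ↥(k ⊔ M) = 2 * 3 ^ j := by
    rw [H90.fr_sup, hk2, hMj]
    rw [hk2, hMj]
    exact hc3 1
  have hd2 : finrank ℚ ↥(H69.tr e L ⊔ M) = 4 * 3 ^ j := by
    rw [H90.fr_sup, hK4, hMj]
    rw [hK4, hMj]
    exact hc3 2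
  -- algebras
  have l1 : k ≤ k ⊔ M := le_sup_left
  have l2 : H69.tr e L ≤ H69.tr e L ⊔ M := le_sup_left
  have l3 : k ⊔ M ≤ H69.tr e L ⊔ M := sup_le_sup_right hkK M
  let a1 : Algebra k ↥(k ⊔ M) := (IntermediateField.inclusion l1).toRingHom.toAlgebra
  let a2 : Algebra k ↥(H69.tr e L ⊔ M) :=
    (IntermediateField.inclusion (l1.trans l3)).toRingHom.toAlgebra
  let a3 : Algebra L ↥(H69.tr e L ⊔ M) :=
    ((IntermediateField.inclusion l2).toRingHom.comp (H69.trE e L : L →+* H69.tr e L)).toAlgebra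
  let a4 : Algebra ↥(k ⊔ M) ↥(H69.tr e L ⊔ M) :=
    (IntermediateField.inclusion l3).toRingHom.toAlgebra
  have t1 : IsScalarTower k L ↥(H69.tr e L ⊔ M) := by
    refine IsScalarTower.of_algebraMap_eq fun x => ?_
    apply Subtype.ext
    change (x : AlgebraicClosure ℚ) = e (algebraMap k (AlgebraicClosure k) x)
    rw [e.commutes]
    rfl
  have t2 : IsScalarTower k ↥(k ⊔ M) ↥(H69.tr e L ⊔ M) :=
    IsScalarTower.of_algebraMap_eq fun x => rfl
  have q1 : IsScalarTower ℚ k ↥(k ⊔ M) := IsScalarTower.of_algebraMap_eq fun x => rfl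
  have q2 : IsScalarTower ℚ ↥(k ⊔ M) ↥(H69.tr e L ⊔ M) :=
    IsScalarTower.of_algebraMap_eq fun x => rfl
  have hm1 := Module.finrank_mul_finrank ℚ k ↥(k ⊔ M)
  have hm2 := Module.finrank_mul_finrank ℚ ↥(k ⊔ M) ↥(H69.tr e L ⊔ M)
  rw [hk2, hd1] at hm1
  rw [hd1, hd2] at hm2
  obtain ⟨n, hn⟩ := H90.le_cyF k M hM hM0
  refine hG.cyc ↥(k ⊔ M) ↥(H69.tr e L ⊔ M) n j ?_ ?_ ?_ hLk
  · obtain ⟨E⟩ := IsCyclotomicExtension.nonempty_algEquiv_adjoin_of_isSepClosed {3 ^ n} k
      (CyclotomicField (3 ^ n) k) (AlgebraicClosure ℚ)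
    have hle : k ⊔ M ≤ (H90.cyF k n).restrictScalars ℚ := by
      refine sup_le ?_ ?_
      · intro x hx
        exact (H90.cyF k n).algebraMap_mem ⟨x, hx⟩
      · intro x hx
        exact hn x hx
    let g : ↥(k ⊔ M) →ₐ[k] H90.cyF k n :=
      { toFun := fun x => ⟨x, hle x.2⟩
        map_one' := rfl
        map_mul' := fun x y => rfl
        map_zero' := rfl
        map_add' := fun x y => rfl
        commutes' := fun x => rfl }
    have E2 : H90.cyF k n →ₐ[k] CyclotomicField (3 ^ n) k := E.symm.toAlgHom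
    exact ⟨E2.comp g⟩
  · exact Nat.eq_of_mul_eq_mul_left (by norm_num) hm1
  · have h3 : 0 < 2 * 3 ^ j := by positivity
    apply Nat.eq_of_mul_eq_mul_left h3
    rw [hm2]
    ring

theorem ncard_iUnion_eq {ι α : Type} [Fintype ι] (s : ι → Set α) (hf : ∀ i, (s i).Finite)
    (hd : ∀ i j a, a ∈ s i → a ∈ s j → i = j) : (⋃ i, s i).ncard = ∑ i, (s i).ncard := by
  have h1 : (⋃ i, s i) = ((Finset.univ.biUnion fun i => (hf i).toFinset : Finset α) : Set α) := by
    ext a
    simp
  rw [h1, Set.ncard_coe_finset, Finset.card_biUnion]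
  · refine Finset.sum_congr rfl fun i _ => ?_
    rw [Set.ncard_eq_toFinset_card _ (hf i)]
  · intro i _ j _ hij
    refine Finset.disjoint_left.2 ?_
    intro a ha hb
    rw [Set.Finite.mem_toFinset] at ha hb
    exact hij (hd i j a ha hb)

theorem qtm : QtmStmt := by
  intro k hN hk2 hkr hlk X hfin
  have ha := H69.algQ
  have hcl : IsAlgClosure k (AlgebraicClosure ℚ) :=
    ⟨inferInstance, Algebra.IsAlgebraic.tower_top (K := ℚ) k⟩
  let e : AlgebraicClosure k ≃ₐ[k] AlgebraicClosure ℚ :=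
    IsAlgClosure.equiv k (AlgebraicClosure k) (AlgebraicClosure ℚ)
  have h1 : {K | K ∈ Q4m X ∧ k ≤ K} =
      H69.tr e '' ⋃ w : {w : InfinitePlace k // IsReal w}, Qx k {w} X := by
    ext K
    constructor
    · rintro ⟨hK, hkK⟩
      obtain ⟨L, rfl⟩ := H69.tr_surj e hkK
      obtain ⟨w, hw⟩ := (mem_iff1 e hk2 hkr X L).2 hK
      exact ⟨L, Set.mem_iUnion.2 ⟨w, hw⟩, rfl⟩
    · rintro ⟨L, hL, rfl⟩
      obtain ⟨w, hw⟩ := Set.mem_iUnion.1 hL
      exact ⟨(mem_iff1 e hk2 hkr X L).1 ⟨w, hw⟩, H69.le_tr e L⟩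
  have hfU : (⋃ w : {w : InfinitePlace k // IsReal w}, Qx k {w} X).Finite :=
    Set.finite_iUnion hfin
  refine ⟨?_, ?_, ?_⟩
  · rw [h1]
    exact hfU.image _
  · rw [h1, Set.ncard_image_of_injective _ (H69.tr_inj e)]
    exact ncard_iUnion_eq _ hfin fun i j a h h' => qx_disjoint h h'
  · have hfin2 : ∀ w : {w : InfinitePlace k // IsReal w},
        {K | K ∈ Qx k {w} X ∧ ∃ _ : NumberField K, ¬ GoodT k K}.Finite := fun w =>
      (hfin w).subset fun K hK => hK.1
    have hsub : {K | K ∈ Q4m X ∧ k ≤ K ∧ ¬ LeoCyc K} ⊆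
        H69.tr e '' ⋃ w : {w : InfinitePlace k // IsReal w},
          {K | K ∈ Qx k {w} X ∧ ∃ _ : NumberField K, ¬ GoodT k K} := by
      rintro K ⟨hK, hkK, hl⟩
      obtain ⟨L, rfl⟩ := H69.tr_surj e hkK
      obtain ⟨w, hw⟩ := (mem_iff1 e hk2 hkr X L).2 hK
      have hw' := hw
      obtain ⟨hNL, hq, hd⟩ := hw'
      obtain ⟨hNK, hK4, -⟩ := hK
      exact ⟨L, Set.mem_iUnion.2 ⟨w, hw, hNL, fun hG => hl (core e hk2 hlk L hK4 hG)⟩, rfl⟩
    calc {K | K ∈ Q4m X ∧ k ≤ K ∧ ¬ LeoCyc K}.ncard ≤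
        (H69.tr e '' ⋃ w : {w : InfinitePlace k // IsReal w},
          {K | K ∈ Qx k {w} X ∧ ∃ _ : NumberField K, ¬ GoodT k K}).ncard :=
          Set.ncard_le_ncard hsub ((Set.finite_iUnion hfin2).image _)
      _ ≤ (⋃ w : {w : InfinitePlace k // IsReal w},
          {K | K ∈ Qx k {w} X ∧ ∃ _ : NumberField K, ¬ GoodT k K}).ncard :=
          Set.ncard_image_le (Set.finite_iUnion hfin2)
      _ = _ := ncard_iUnion_eq _ hfin2 fun i j a h h' => qx_disjoint h.1 h'.1

end Pool.Agent.LeoD.H81
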