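import Pool.Agent.LeoD.TowStmts
import Pool.Agent.Helper61_LeoD.Std
import Pool.Agent.Helper61_LeoG.Stg

/-!
# Squad LEOD, module STDT: assembly of the algebraic part, with ideals
-/

set_option autoImplicit false

open NumberField NumberField.InfinitePlace NumberField.mixedEmbedding IsDedekindDomain Module
  MeasureTheory Filter Topology
open Pool.Agent.Helper85_Leo Pool.Agent.LeoK Pool.Agent.LeoG Pool.Agent.LeoC
open Pool.Agent.Leo3 (Om InLoc FixF)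

open scoped Classical

namespace Pool.Agent.LeoD.H81

/-- the ideal `I` with `I ^ 3 = (y)`, `y c(y) = ν³`, has norm `(ν)` -/
lemma ideal_norm {k K : Type} [Field k] [NumberField k] [Field K] [NumberField K] [Algebra k K]
    (c : K ≃ₐ[k] K) (y : 𝓞 K) (I : Ideal (𝓞 K)) (ν : 𝓞 k)
    (hy : (y : K) * c (y : K) = algebraMap k K (ν : k) ^ 3) (hI : Ideal.span {y} = I ^ 3) :
    I * conjI (c : K ≃+* K) I = Ideal.span {algebraMap (𝓞 k) (𝓞 K) ν} := by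
  apply Pool.Agent.LeoG.H61.ideal_cube_inj
  have h1 : conjI (c : K ≃+* K) I ^ 3 = conjI (c : K ≃+* K) (I ^ 3) := by
    rw [pow_succ, pow_succ, pow_one, pow_succ, pow_succ, pow_one, Pool.Agent.LeoG.H61.conjI_mul,
      Pool.Agent.LeoG.H61.conjI_mul]
  rw [mul_pow, h1, ← hI, Pool.Agent.LeoG.H61.conjI_span, Ideal.span_singleton_mul_span_singleton,
    Ideal.span_singleton_pow]
  congr 2
  apply RingOfIntegers.ext
  exact hy

theorem stdt (hqrd : QrdStmt) (hcnj : CnjStmt) (hdvp : DvpStmt) (hapti : AptiStmt)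
    (hlati : LatiStmt) (hfrmi : FrmiStmt) (hflci : FlciStmt) (hhcy : HcyStmt) (hfla : FlaStmt)
    (hflb : FlbStmt) : StdtStmt := by
  intro k _ _ M
  obtain ⟨M', hM'⟩ : ∃ M' : ℕ, M' = M + 2 * finrank ℚ k + 2 := ⟨_, rfl⟩
  obtain ⟨P, Q, hPQ0, hmain⟩ := hapti k M'
  obtain ⟨i, hi⟩ : ∃ i : ℕ, 2 * i = 3 ^ M' + 1 := by
    have h1 : Odd (3 ^ M') := Odd.pow (by decide)
    obtain ⟨j, hj⟩ := h1
    exact ⟨j + 1, by omega⟩
  have hi2 : ∀ p : HeightOneSpectrum (𝓞 k), (3 : 𝓞 k) ∈ p.asIdeal →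
      2 * (i : 𝓞 k) - 1 ∈ p.asIdeal ^ M' := by
    intro p hp
    have h1 : 2 * (i : 𝓞 k) - 1 = 3 ^ M' := by
      have h2 : ((2 * i : ℕ) : 𝓞 k) = ((3 ^ M' + 1 : ℕ) : 𝓞 k) := by rw [hi]
      push_cast at h2
      rw [h2]
      ring
    rw [h1]
    exact Ideal.pow_mem_pow hp _
  have hle : ∀ p : HeightOneSpectrum (𝓞 k), p.asIdeal ^ M' ≤ p.asIdeal ^ M := fun p =>
    Ideal.pow_le_pow_right (by omega)
  refine ⟨fun p => hPQ (P p) (Q p) (i : 𝓞 k), fun p hp =>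
    hhcy k p M _ _ _ (hle p (hPQ0 p hp)) (hle p (hi2 p hp)), ?_⟩
  intro K _ _ _ B m r h2 hr hnr _ hF hWT
  obtain ⟨s, c, hs, hext⟩ := hcnj k K m r h2 hr hnr
  obtain ⟨y, I, ν, hν0, hyν, hI, hy3, hloc⟩ := hmain K m s c hext hWT
  have hν3 : (3 : 𝓞 k) ∣ ν - 1 := by
    refine hdvp.2.1 k (ν - 1) fun p hp => ?_
    exact Ideal.pow_le_pow_right (by omega) (hloc p hp).1
  obtain ⟨U, V, X, Y, X', Y', hU, hV, hUV, hXY, hXY'⟩ := hlati k K B m s c hext hF I ν hν0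
    (ideal_norm c y I ν hyν hI) hν3
  obtain ⟨F, hFo, hFi, hFm, hF0, hF1, hF2, hF3⟩ := hfrmi k K B m s c hext
    (hqrd k K B m s c hext hF).1 y I ν hν0 hyν hI hy3 U V hU hV hUV
  obtain ⟨hdet, W, hW, hco⟩ := hflci k K B m s c hext y ν hν0 hyν U V X Y X' Y' hUV hXY hXY'
    F hFo
  refine ⟨F, hFi, hFm, hF0, hF1, hF2, hF3, fun p hp => ?_⟩
  obtain ⟨hν1, hZT⟩ := hloc p hp
  rcases hZT with h1 | ⟨μ, hμ, h1⟩
  · left
    have h2 : W - 1 ∈ (p.asIdeal ^ M').map (algebraMap (𝓞 k) (𝓞 K)) := by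
      refine Pool.Agent.LeoD.H61.conj_mem c _ _ _ ?_ h1
      have h3 : ((W - 1 : 𝓞 K) : K) = (W : K) - 1 := rfl
      have h4 : ((y - 1 : 𝓞 K) : K) = (y : K) - 1 := rfl
      rw [h3, h4, map_sub, map_one, hW]
    rw [hM'] at h1 h2
    obtain ⟨h3, x, y', h4, h5⟩ := hfla k K B m s c hext hF p M hp ν X Y X' Y' _ W F
      (Ideal.pow_le_self (by omega) hν1) hdet hco h1 h2
    exact ⟨h3, x, y', h4, Ideal.mem_sup_right h5⟩
  · right
    have h2 : 3 * algebraMap (𝓞 k) (𝓞 K) μ * (W - algebraMap (𝓞 k) (𝓞 K) (P p)) +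
        algebraMap (𝓞 k) (𝓞 K) (Q p) * s ∈ (p.asIdeal ^ M').map (algebraMap (𝓞 k) (𝓞 K)) := by
      refine Pool.Agent.LeoD.H61.conj_mem c _ _ _ ?_ h1
      have h3 : ((3 * algebraMap (𝓞 k) (𝓞 K) μ * (W - algebraMap (𝓞 k) (𝓞 K) (P p)) +
          algebraMap (𝓞 k) (𝓞 K) (Q p) * s : 𝓞 K) : K) = 3 * algebraMap k K (μ : k) *
            ((W : K) - algebraMap k K (P p : k)) + algebraMap k K (Q p : k) * s := rfl
      have h4 : ((3 * algebraMap (𝓞 k) (𝓞 K) μ * (y -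
          algebraMap (𝓞 k) (𝓞 K) (P p)) - algebraMap (𝓞 k) (𝓞 K) (Q p) * s : 𝓞 K) : K) =
            3 * algebraMap k K (μ : k) * ((y : K) -
              algebraMap k K (P p : k)) - algebraMap k K (Q p : k) * s := rfl
      rw [h3, h4, map_sub, map_mul, map_mul, map_sub, map_mul c (algebraMap k K (Q p : k)),
        c.commutes, c.commutes, c.commutes, hext.conj, hW, map_ofNat]
      ring
    rw [hM'] at h1 h2 hμ hν1
    have hi3 := hi2 p hp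
    rw [hM'] at hi3
    exact hflb k K B m s c hext hF p M hp ν X Y X' Y' _ W F hν1 hdet hco (P p) (Q p) i μ hi3 hμ
      h1 h2

end Pool.Agent.LeoD.H81
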